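import Mathlib

/-!
# Perfect Roman domination: the ratio can be arbitrarily close to one at every large order

Construction.  Let `U = Fin m`.  For every nonempty `A ⊆ U` there are `t (|A|-1)! (m-|A|)!` further
vertices, each joined exactly to the members of `A`, and `r` further vertices joined to all of `U`.
There are `t m! H_m + r` further vertices, and every nonempty `S ⊆ U` uniquely covers at most
`t m! + r` of them.  Hence every perfect Roman dominating function has weight at least
`t m! (H_m - 1)`.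
-/

set_option autoImplicit false

namespace Pool.Agent.Results.MP_a94970_co.RatioTendsToOne

open Finset Nat

/-- `f` is a perfect Roman dominating function of `G`: every vertex of value `0` has exactly one
neighbour of value `2`. -/
def IsPRDF {V : Type} (G : SimpleGraph V) (f : V → Fin 3) : Prop :=
  ∀ v, f v = 0 → ∃! u, G.Adj v u ∧ f u = 2

/-- The weight of `f` is the sum of its values. -/
def weight {V : Type} [Fintype V] (f : V → Fin 3) : ℕ := ∑ v, (f v : ℕ)

/-- The perfect Roman domination number: the least weight of a perfect Roman dominating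
function. -/
noncomputable def gammaPR {V : Type} [Fintype V] (G : SimpleGraph V) : ℕ :=
  sInf {w | ∃ f : V → Fin 3, IsPRDF G f ∧ weight f = w}

/-! ## Proof -/

theorem key {α : Type} [DecidableEq α] (T : Finset α) : ∀ (a d : ℕ),
    (∑ B ∈ T.powerset, (a + B.card)! * (T.card + d - B.card)!) * (a + d + 1)!
      = a ! * d ! * (a + T.card + d + 1)! := by
  induction T using Finset.induction_on with
  | empty =>
    intro a d
    simp
  | insert x T hx ih =>
    intro a d
    rw [Finset.sum_powerset_insert hx, Finset.card_insert_of_notMem hx]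
    have h1 := ih a (d + 1)
    have h2 := ih (a + 1) d
    have e1 : ∑ B ∈ T.powerset, (a + B.card)! * (T.card + 1 + d - B.card)!
        = ∑ B ∈ T.powerset, (a + B.card)! * (T.card + (d + 1) - B.card)! := by
      refine Finset.sum_congr rfl fun B _ => ?_
      rw [show T.card + 1 + d = T.card + (d + 1) by ring]
    have e2 : ∑ B ∈ T.powerset, (a + (insert x B).card)! * (T.card + 1 + d - (insert x B).card)!
        = ∑ B ∈ T.powerset, (a + 1 + B.card)! * (T.card + d - B.card)! := by
      refine Finset.sum_congr rfl fun B hB => ?_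
      have hxB : x ∉ B := fun h => hx (Finset.mem_powerset.mp hB h)
      rw [Finset.card_insert_of_notMem hxB]
      congr 2
      · ring
      · omega
    rw [e1, e2]
    set F1 := ∑ B ∈ T.powerset, (a + B.card)! * (T.card + (d + 1) - B.card)!
    set F2 := ∑ B ∈ T.powerset, (a + 1 + B.card)! * (T.card + d - B.card)!
    have g1 : F1 * (a + d + 2)! = a ! * (d + 1)! * (a + T.card + d + 2)! := by
      have := h1
      rw [show a + (d + 1) + 1 = a + d + 2 by ring,
        show a + T.card + (d + 1) + 1 = a + T.card + d + 2 by ring] at this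
      exact this
    have g2 : F2 * (a + d + 2)! = (a + 1)! * d ! * (a + T.card + d + 2)! := by
      have := h2
      rw [show a + 1 + d + 1 = a + d + 2 by ring,
        show a + 1 + T.card + d + 1 = a + T.card + d + 2 by ring] at this
      exact this
    have hs : (a + d + 2)! = (a + d + 2) * (a + d + 1)! := Nat.factorial_succ _
    have hpos : 0 < a + d + 2 := by omega
    apply Nat.eq_of_mul_eq_mul_left hpos
    have : (a + d + 2) * ((F1 + F2) * (a + d + 1)!) = F1 * (a + d + 2)! + F2 * (a + d + 2)! := by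
      rw [hs]; ring
    rw [this, g1, g2, Nat.factorial_succ d, Nat.factorial_succ a,
      show a + (T.card + 1) + d + 1 = a + T.card + d + 2 by ring]
    ring

/-- multiplicities -/
def cc (m k : ℕ) : ℕ := if k = 0 then 0 else (k - 1)! * (m - k)!

/-- the vertices joined to the set `A` -/
abbrev W (m t : ℕ) : Type := Σ A : Finset (Fin m), Fin (t * cc m A.card)

/-- the vertices -/
abbrev Vt (m t r : ℕ) : Type := Fin m ⊕ (W m t ⊕ Fin r)

/-- the neighbourhood of a further vertex -/
def nb {m t r : ℕ} : W m t ⊕ Fin r → Finset (Fin m)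
  | Sum.inl w => w.1
  | Sum.inr _ => Finset.univ

/-- the graph -/
def Gr (m t r : ℕ) : SimpleGraph (Vt m t r) where
  Adj x y := match x, y with
    | Sum.inl u, Sum.inr w => u ∈ nb w
    | Sum.inr w, Sum.inl u => u ∈ nb w
    | _, _ => False
  symm := ⟨by
    rintro (u | w) (u' | w') h
    · exact h.elim
    · exact h
    · exact h
    · exact h.elim⟩
  loopless := ⟨by
    rintro (u | w) h
    · exact h
    · exact h⟩

theorem adj_inl_inr (m t r : ℕ) (u : Fin m) (w : W m t ⊕ Fin r) :
    (Gr m t r).Adj (Sum.inl u) (Sum.inr w) ↔ u ∈ nb w := Iff.rfl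
theorem adj_inr_inl (m t r : ℕ) (u : Fin m) (w : W m t ⊕ Fin r) :
    (Gr m t r).Adj (Sum.inr w) (Sum.inl u) ↔ u ∈ nb w := Iff.rfl
theorem adj_inr_inr (m t r : ℕ) (u w : W m t ⊕ Fin r) :
    ¬ (Gr m t r).Adj (Sum.inr w) (Sum.inr u) := fun h => h

theorem conn (m t r : ℕ) (hm : 0 < m) (ht : 0 < t) : (Gr m t r).Connected := by
  have hc : 0 < t * cc m (Finset.univ : Finset (Fin m)).card := by
    simp only [cc, Finset.card_univ, Fintype.card_fin]
    rw [if_neg hm.ne']
    positivity
  let w0 : W m t ⊕ Fin r := Sum.inl ⟨Finset.univ, ⟨0, hc⟩⟩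
  have hr : ∀ x, (Gr m t r).Reachable x (Sum.inr w0) := by
    have h1 : ∀ u : Fin m, (Gr m t r).Reachable (Sum.inl u) (Sum.inr w0) := by
      intro u
      exact SimpleGraph.Adj.reachable ((adj_inl_inr m t r u w0).2 (Finset.mem_univ u))
    rintro (u | w)
    · exact h1 u
    · have hne : (nb w).Nonempty := by
        rcases w with w | w
        · rw [Finset.nonempty_iff_ne_empty]
          intro h
          have h2 : 0 < t * cc m w.1.card := lt_of_le_of_lt (Nat.zero_le _) w.2.2
          have h3 : w.1 = ∅ := h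
          rw [h3] at h2
          simp [cc] at h2
        · exact ⟨⟨0, hm⟩, Finset.mem_univ _⟩
      obtain ⟨u, hu⟩ := hne
      exact (SimpleGraph.Adj.reachable ((adj_inr_inl m t r u w).2 hu)).trans (h1 u)
  have : Nonempty (Vt m t r) := ⟨Sum.inr w0⟩
  exact ⟨fun x y => (hr x).trans (hr y).symm⟩

/-- number of further vertices of the first kind -/
theorem cardW (m t : ℕ) : (Fintype.card (W m t) : ℚ) = t * (m ! * harmonic m) := by
  rw [Fintype.card_sigma]
  simp only [Fintype.card_fin]
  have h := Finset.sum_powerset_apply_card (fun k => (cc m k : ℚ)) (x := (Finset.univ : Finset (Fin m)))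
  rw [Finset.powerset_univ] at h
  push_cast
  rw [← Finset.mul_sum, h, Finset.card_univ, Fintype.card_fin, Finset.sum_range_succ', harmonic,
    Finset.mul_sum (s := Finset.range m)]
  congr 1
  simp only [cc, nsmul_eq_mul]
  simp only [if_true, Nat.cast_zero, mul_zero, add_zero]
  refine Finset.sum_congr rfl fun k hk => ?_
  rw [if_neg (Nat.succ_ne_zero k)]
  have hk' : k + 1 ≤ m := by simpa using hk
  have := Nat.choose_mul_factorial_mul_factorial hk'
  rw [← this, Nat.factorial_succ]
  push_cast
  have : ((k : ℚ) + 1) ≠ 0 := by positivity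
  field_simp

/-- unique coverage bound -/
theorem cover (m t : ℕ) (S : Finset (Fin m)) (Z : Finset (W m t))
    (hZ : ∀ w ∈ Z, ∃ u ∈ S, u ∈ w.1 ∧ ∀ u' ∈ S, u' ∈ w.1 → u' = u) : Z.card ≤ t * m ! := by
  classical
  have hsub : Z ⊆ (S ×ˢ (Sᶜ).powerset).biUnion (fun p =>
      (Finset.univ : Finset (Fin (t * cc m (insert p.1 p.2).card))).image
        (fun j => (⟨insert p.1 p.2, j⟩ : W m t))) := by
    intro w hw
    obtain ⟨u, huS, huw, huniq⟩ := hZ w hw
    have hw1 : insert u (w.1 \ S) = w.1 := by
      ext v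
      simp only [Finset.mem_insert, Finset.mem_sdiff]
      constructor
      · rintro (rfl | h)
        · exact huw
        · exact h.1
      · intro hv
        by_cases hvS : v ∈ S
        · exact Or.inl (huniq v hvS hv)
        · exact Or.inr ⟨hv, hvS⟩
    rw [Finset.mem_biUnion]
    refine ⟨(u, w.1 \ S), ?_, ?_⟩
    · rw [Finset.mem_product]
      refine ⟨huS, ?_⟩
      rw [Finset.mem_powerset]
      intro v hv
      rw [Finset.mem_compl]
      exact (Finset.mem_sdiff.1 hv).2
    · obtain ⟨A, j⟩ := w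
      simp only at hw1 ⊢
      rw [hw1]
      exact Finset.mem_image_of_mem _ (Finset.mem_univ j)
  refine (Finset.card_le_card hsub).trans (Finset.card_biUnion_le.trans ?_)
  have h1 : ∀ p ∈ S ×ˢ (Sᶜ).powerset,
      ((Finset.univ : Finset (Fin (t * cc m (insert p.1 p.2).card))).image
        (fun j => (⟨insert p.1 p.2, j⟩ : W m t))).card
        ≤ t * ((0 + p.2.card)! * ((Sᶜ).card + (S.card - 1) - p.2.card)!) := by
    rintro ⟨u, B⟩ hp
    rw [Finset.mem_product, Finset.mem_powerset] at hp
    obtain ⟨hu, hB⟩ := hp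
    simp only at hu hB ⊢
    refine Finset.card_image_le.trans ?_
    have huB : u ∉ B := fun h => (Finset.mem_compl.1 (hB h)) hu
    rw [Finset.card_univ, Fintype.card_fin, Finset.card_insert_of_notMem huB, cc,
      if_neg (Nat.succ_ne_zero _)]
    have hcs : 0 < S.card := Finset.card_pos.2 ⟨u, hu⟩
    have hcc := Finset.card_add_card_compl S
    rw [Fintype.card_fin] at hcc
    have e1 : B.card + 1 - 1 = 0 + B.card := by omega
    have e2 : m - (B.card + 1) = (Sᶜ).card + (S.card - 1) - B.card := by omega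
    rw [e1, e2]
  refine (Finset.sum_le_sum h1).trans ?_
  rw [← Finset.mul_sum]
  refine Nat.mul_le_mul_left t ?_
  rw [Finset.sum_product]
  simp only [Finset.sum_const, smul_eq_mul]
  rcases Nat.eq_zero_or_pos S.card with h0 | hpos
  · rw [h0, zero_mul]; exact Nat.zero_le _
  · have hk := key (Sᶜ) 0 (S.card - 1)
    have hcc := Finset.card_add_card_compl S
    rw [Fintype.card_fin] at hcc
    have e1 : 0 + (S.card - 1) + 1 = S.card - 1 + 1 := by omega
    have e2 : 0 + (Sᶜ).card + (S.card - 1) + 1 = m := by omega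
    rw [e1, e2, Nat.factorial_succ, Nat.sub_add_cancel hpos, Nat.factorial_zero, one_mul] at hk
    have hf : 0 < (S.card - 1)! := Nat.factorial_pos _
    apply le_of_eq
    apply Nat.eq_of_mul_eq_mul_left hf
    rw [← hk]
    ring

/-- weight bound for every perfect Roman dominating function of the graph -/
theorem weight_bound (m t r : ℕ) (f : Vt m t r → Fin 3) (hf : IsPRDF (Gr m t r) f) :
    Fintype.card (W m t) ≤ t * m ! + weight f := by
  classical
  set Z : Finset (W m t) := Finset.univ.filter (fun w => f (Sum.inr (Sum.inl w)) = 0) with hZ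
  have h1 : Z.card ≤ t * m ! := by
    apply cover m t (Finset.univ.filter (fun u => f (Sum.inl u) = 2)) Z
    intro w hw
    have hw0 : f (Sum.inr (Sum.inl w)) = 0 := by simpa [hZ] using hw
    obtain ⟨x, ⟨hx, hx2⟩, huniq⟩ := hf _ hw0
    rcases x with u | w'
    · refine ⟨u, by simpa using hx2, hx, ?_⟩
      intro u' hu' hu'w
      have h3 := huniq (Sum.inl u') ⟨hu'w, by simpa using hu'⟩
      exact Sum.inl_injective h3
    · exact absurd hx (adj_inr_inr m t r _ _)
  have h2 : Fintype.card (W m t) ≤ Z.card + ∑ w : W m t, (f (Sum.inr (Sum.inl w)) : ℕ) := by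
    have : ∑ w : W m t, 1 ≤ ∑ w : W m t,
        ((if f (Sum.inr (Sum.inl w)) = 0 then 1 else 0) + (f (Sum.inr (Sum.inl w)) : ℕ)) := by
      refine Finset.sum_le_sum fun w _ => ?_
      split_ifs with h
      · omega
      · have : (f (Sum.inr (Sum.inl w)) : ℕ) ≠ 0 := fun h' => h (Fin.ext h')
        omega
    rw [Finset.sum_add_distrib, ← Finset.card_filter] at this
    simpa [hZ] using this
  unfold weight
  rw [Fintype.sum_sum_type, Fintype.sum_sum_type]
  omega

/-- the constant function one -/
theorem one_mem {V : Type} [Fintype V] (G : SimpleGraph V) :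
    {w | ∃ f : V → Fin 3, IsPRDF G f ∧ weight f = w}.Nonempty :=
  ⟨weight (fun _ : V => (1 : Fin 3)), fun _ => 1,
    fun _ hv => absurd (show (1 : Fin 3) = 0 from hv) (by decide), rfl⟩

/-- invariance under isomorphism, lower bound -/
theorem gamma_ge {V : Type} [Fintype V] {n : ℕ} (G : SimpleGraph V) (e : V ≃ Fin n) (X : ℕ)
    (h : ∀ f : V → Fin 3, IsPRDF G f → X ≤ weight f) :
    X ≤ gammaPR (G.map e.toEmbedding) := by
  obtain ⟨f, hf, hw⟩ := Nat.sInf_mem (one_mem (G.map e.toEmbedding))
  unfold gammaPR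
  rw [← hw]
  have hadj : ∀ x y : V, (G.map e.toEmbedding).Adj (e x) (e y) ↔ G.Adj x y := by
    intro x y
    exact SimpleGraph.map_adj_apply
  have h1 : IsPRDF G (fun v => f (e v)) := by
    intro v hv
    obtain ⟨u, ⟨hu, hu2⟩, huniq⟩ := hf (e v) hv
    refine ⟨e.symm u, ⟨?_, by simpa using hu2⟩, ?_⟩
    · rw [← hadj, Equiv.apply_symm_apply]
      exact hu
    · rintro y ⟨hy, hy2⟩
      have := huniq (e y) ⟨(hadj v y).2 hy, hy2⟩
      rw [← this, Equiv.symm_apply_apply]
  have h2 : weight (fun v => f (e v)) = weight f := by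
    unfold weight
    exact Equiv.sum_comp e (fun v => (f v : ℕ))
  rw [← h2]
  exact h _ h1

theorem exists_m (c : ℝ) (hc : c < 1) : ∃ m : ℕ, 1 ≤ m ∧ 1 < (1 - c) * (harmonic m : ℚ) := by
  obtain ⟨k, hk⟩ := exists_nat_gt (1 / (1 - c))
  have hpos : 0 < 1 - c := by linarith
  refine ⟨⌈Real.exp k⌉₊, Nat.ceil_pos.2 (Real.exp_pos _), ?_⟩
  have h1 : (k : ℝ) ≤ ((harmonic ⌈Real.exp k⌉₊ : ℚ) : ℝ) := by
    refine le_trans ?_ (log_add_one_le_harmonic _)
    rw [← Real.log_exp (k : ℝ)]
    refine Real.log_le_log (Real.exp_pos _) ?_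
    rw [Real.log_exp]
    have := Nat.le_ceil (Real.exp (k : ℝ))
    push_cast
    linarith
  have h2 : 1 < (1 - c) * k := by
    rw [div_lt_iff₀ hpos] at hk
    linarith
  exact h2.trans_le (mul_le_mul_of_nonneg_left h1 hpos.le)

/-- For every real `c < 1` there is `n₀` such that for every `n ≥ n₀` some connected graph of order
`n` has perfect Roman domination number greater than `c n`. -/
theorem result : ∀ c : ℝ, c < 1 → ∃ n₀ : ℕ, ∀ n : ℕ, n₀ ≤ n →
    ∃ G : SimpleGraph (Fin n), G.Connected ∧ c * (n : ℝ) < (gammaPR G : ℝ) := by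
  intro c hc
  -- we may assume `0 ≤ c`
  wlog hc0 : 0 ≤ c generalizing c
  · obtain ⟨n₀, h⟩ := this 0 (by norm_num) le_rfl
    refine ⟨n₀, fun n hn => ?_⟩
    obtain ⟨G, hG, hlt⟩ := h n hn
    refine ⟨G, hG, lt_of_le_of_lt ?_ hlt⟩
    exact mul_le_mul_of_nonneg_right (le_of_not_ge hc0) (Nat.cast_nonneg n)
  obtain ⟨m, hm1, hm⟩ := exists_m c hc
  set H : ℝ := ((harmonic m : ℚ) : ℝ) with hH
  have hF : (0 : ℝ) < (m ! : ℕ) := by exact_mod_cast Nat.factorial_pos m
  set K : ℕ := Fintype.card (W m 1) with hK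
  have hKH : (K : ℝ) = (m ! : ℕ) * H := by
    have := cardW m 1
    rw [← hK] at this
    have h2 : ((K : ℚ) : ℝ) = (((1 : ℕ) : ℚ) * ((m ! : ℕ) * harmonic m) : ℚ) := by rw [this]
    push_cast at h2
    rw [h2, one_mul, hH]
  have hKt : ∀ t, Fintype.card (W m t) = t * K := by
    intro t
    have h1 := cardW m t
    have h2 := cardW m 1
    rw [← hK] at h2
    have : (Fintype.card (W m t) : ℚ) = ((t * K : ℕ) : ℚ) := by
      rw [h1]
      push_cast
      rw [h2]
      ring
    exact_mod_cast this
  have hgap : 0 < (m ! : ℕ) * ((1 - c) * H - 1) := mul_pos hF (by linarith)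
  have hKpos : 0 < K := by
    have : (0 : ℝ) < K := by
      rw [hKH]
      have : 0 < H := by
        by_contra h
        have : (1 - c) * H ≤ 0 := mul_nonpos_of_nonneg_of_nonpos (by linarith) (le_of_not_gt h)
        linarith
      positivity
    exact_mod_cast this
  obtain ⟨T, hT⟩ := exists_nat_gt ((m + K : ℝ) / ((m ! : ℕ) * ((1 - c) * H - 1)))
  rw [div_lt_iff₀ hgap] at hT
  refine ⟨m + (T + 1) * K, fun n hn => ?_⟩
  -- write n = m + t K + r
  set t : ℕ := (n - m) / K with ht
  set r : ℕ := (n - m) % K with hr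
  have hnm : n = m + (t * K + r) := by
    have := Nat.div_add_mod (n - m) K
    rw [← ht, ← hr] at this
    have h2 : m ≤ n := by omega
    rw [mul_comm t K]
    omega
  have htT : T + 1 ≤ t := by
    rw [ht, Nat.le_div_iff_mul_le hKpos]
    omega
  have hrK : r < K := Nat.mod_lt _ hKpos
  have hcard : Fintype.card (Vt m t r) = n := by
    rw [Fintype.card_sum, Fintype.card_sum, Fintype.card_fin, Fintype.card_fin, hKt, hnm]
  let e : Vt m t r ≃ Fin n := Fintype.equivFinOfCardEq hcard
  refine ⟨(Gr m t r).map e.toEmbedding, ?_, ?_⟩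
  · have hcon := conn m t r hm1 (by omega)
    exact (SimpleGraph.Iso.connected_iff (SimpleGraph.Iso.map e (Gr m t r))).1 hcon
  · have hge := gamma_ge (Gr m t r) e (t * K - t * m !) (fun f hf => by
      have := weight_bound m t r f hf
      rw [hKt] at this
      omega)
    have hge' : ((t * K : ℕ) : ℝ) - ((t * m ! : ℕ) : ℝ) ≤
        (gammaPR ((Gr m t r).map e.toEmbedding) : ℝ) := by
      have h1 : t * K ≤ gammaPR ((Gr m t r).map e.toEmbedding) + t * m ! := by omega
      have h2 : ((t * K : ℕ) : ℝ) ≤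
          ((gammaPR ((Gr m t r).map e.toEmbedding) + t * m ! : ℕ) : ℝ) := by exact_mod_cast h1
      rw [Nat.cast_add] at h2
      linarith
    refine lt_of_lt_of_le ?_ hge'
    have htT' : (T : ℝ) ≤ t := by exact_mod_cast (by omega : T ≤ t)
    have h3 : (m + K : ℝ) < t * ((m ! : ℕ) * ((1 - c) * H - 1)) :=
      hT.trans_le (mul_le_mul_of_nonneg_right htT' hgap.le)
    have hr' : (r : ℝ) ≤ K := by exact_mod_cast hrK.le
    rw [hnm]
    push_cast
    rw [hKH] at h3 hr' ⊢
    have hm0 : (0 : ℝ) ≤ m := Nat.cast_nonneg m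
    have hr0 : (0 : ℝ) ≤ r := Nat.cast_nonneg r
    have h4 : c * (m + r) ≤ m + r := by nlinarith
    nlinarith

end Pool.Agent.Results.MP_a94970_co.RatioTendsToOne
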